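import Pool.Agent.Helper58.FLP.BDef
import Pool.Agent.Helper61.FL14

/-! FLP-B6c: comparison maps of the representable presheaves (helper83). -/

open CategoryTheory MonoidalCategory CartesianMonoidalCategory Opposite

set_option autoImplicit false

namespace Helper83FLP

open FL (SP MpS HoEq InjFib InjFibration Th Wr)
open FLP

noncomputable section

section General

variable {A B J : Type} [SmallCategory A] [SmallCategory B] [SmallCategory J]

lemma iso_inv_hom {X X' : SP A} (f : X ≅ X') {a : Aᵒᵖ} {k : SimplexCategoryᵒᵖ}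
    (x : (X'.obj a).obj k) : (f.hom.app a).app k ((f.inv.app a).app k x) = x :=
  ConcreteCategory.congr_hom (NatTrans.congr_app (NatTrans.congr_app f.inv_hom_id a) k) x

lemma iso_hom_inv {X X' : SP A} (f : X ≅ X') {a : Aᵒᵖ} {k : SimplexCategoryᵒᵖ}
    (x : (X.obj a).obj k) : (f.inv.app a).app k ((f.hom.app a).app k x) = x :=
  ConcreteCategory.congr_hom (NatTrans.congr_app (NatTrans.congr_app f.hom_inv_id a) k) x

/-- Precomposition with an isomorphism. -/
def preIso {X X' : SP A} (f : X ≅ X') (Y : SP A) : FL.Mp X' Y ≅ FL.Mp X Y where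
  hom := FL.Mp.pre f.hom Y
  inv := FL.Mp.pre f.inv Y
  hom_inv_id := by
    refine NatTrans.ext (funext fun m => ConcreteCategory.hom_ext _ _
      fun (φ : MpS X' Y m.unop) => MpS.ext ?_)
    funext a k s x
    exact congrArg (φ.app a k s) (iso_inv_hom f x)
  inv_hom_id := by
    refine NatTrans.ext (funext fun m => ConcreteCategory.hom_ext _ _
      fun (φ : MpS X Y m.unop) => MpS.ext ?_)
    funext a k s x
    exact congrArg (φ.app a k s) (iso_hom_inv f x)

/-- Postcomposition with an isomorphism. -/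
def postIso (X : SP A) {Y Y' : SP A} (f : Y ≅ Y') : FL.Mp X Y ≅ FL.Mp X Y' where
  hom := FL.Mp.post X f.hom
  inv := FL.Mp.post X f.inv
  hom_inv_id := by
    refine NatTrans.ext (funext fun m => ConcreteCategory.hom_ext _ _
      fun (φ : MpS X Y m.unop) => MpS.ext ?_)
    funext a k s x
    exact iso_hom_inv f (φ.app a k s x)
  inv_hom_id := by
    refine NatTrans.ext (funext fun m => ConcreteCategory.hom_ext _ _
      fun (φ : MpS X Y' m.unop) => MpS.ext ?_)
    funext a k s x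
    exact iso_inv_hom f (φ.app a k s x)

lemma arrow_symm {X Y X' Y' : SSet.{0}} {f : X ⟶ Y} {f' : X' ⟶ Y'} (e : X ≅ X') (e' : Y ≅ Y')
    (h : f ≫ e'.hom = e.hom ≫ f') : f' ≫ e'.symm.hom = e.symm.hom ≫ f := by
  rw [Iso.symm_hom, Iso.symm_hom, Iso.comp_inv_eq, Category.assoc, h, Iso.inv_hom_id_assoc]

lemma yon_app {K : SSet.{0}} {m : SimplexCategory} (x : Sx K m) (k : SimplexCategoryᵒᵖ)
    (z : (SSet.stdSimplex.obj m : SSet.{0}).obj k) :
    (SSet.yonedaEquiv.symm x : SSet.stdSimplex.obj m ⟶ K).app k z =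
      res (SSet.stdSimplex.objEquiv z) x := rfl

lemma ofMx_along (t : B ⥤ A) {X Y : SP A} {m : SimplexCategory} (φ : Mx X Y m) (b : Bᵒᵖ)
    (l : SimplexCategoryᵒᵖ) (s : l.unop ⟶ m) (x : ((rs t X).obj b).obj l) :
    (ofMx (φ.along t)).app b l s x = (ofMx φ).app (t.op.obj b) l s x := rfl

lemma comp_elem (t : B ⥤ A) {X Y : SP A} {Z : SP B} {k m : SimplexCategory} (φ : Mx X Y k)
    (ψ : MpS (rs t Y) Z m) (α : k ⟶ m) (b : Bᵒᵖ) (l : SimplexCategoryᵒᵖ) (s : l.unop ⟶ k)
    (x : ((rs t X).obj b).obj l) :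
    (ofMx ((φ.along t).comp ((toMx ψ).res α))).app b l s x =
      ψ.app b l (s ≫ α) ((ofMx φ).app (t.op.obj b) l s x) := by
  rw [ofMx_comp, ← toMx_res, ofMx_toMx]
  rfl

/-- The diagram restricted along `t`. -/
abbrev rD (t : B ⥤ A) (p : J ⥤ SP A) : J ⥤ SP B :=
  p ⋙ (Functor.whiskeringLeft _ _ _).obj t.op

/-- Homotopy colimits commute with restriction. -/
def hocoIso (t : B ⥤ A) (p : J ⥤ SP A) : FL.Hoco (rD t p) ≅ t.op ⋙ FL.Hoco p where
  hom := { app := fun a =>
             { app := fun k => ↾ fun (w : FL.HS (rD t p) a k) =>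
                 (⟨w.σ, w.x⟩ : FL.HS p (t.op.obj a) k)
               naturality := fun _ _ _ => rfl }
           naturality := fun _ _ _ => rfl }
  inv := { app := fun a =>
             { app := fun k => ↾ fun (w : FL.HS p (t.op.obj a) k) =>
                 (⟨w.σ, w.x⟩ : FL.HS (rD t p) a k)
               naturality := fun _ _ _ => rfl }
           naturality := fun _ _ _ => rfl }
  hom_inv_id := rfl
  inv_hom_id := rfl

end General

variable {n : ℕ} {J B : Type} [SmallCategory J] [SmallCategory B]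

/-- The diagram of mapping spaces. -/
def dIso (t : B ⥤ Th n) (Z : SP B) (p : PSh.Diag n J) :
    FL.mpDiag (rD t p.p) Z ≅ (PSh.rp t Z).along p where
  hom := { app := fun j => (mpIso (t.op ⋙ p.p.obj j.unop) Z).hom
           naturality := fun _ _ _ => rfl }
  inv := { app := fun j => (mpIso (t.op ⋙ p.p.obj j.unop) Z).inv
           naturality := fun j j' f => by
             have h := mpIso_pre (Functor.whiskerLeft t.op (p.p.map f.unop)) Z
             rw [← Iso.eq_comp_inv, Category.assoc] at h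
             rw [← Iso.inv_comp_eq] at h
             exact h }
  hom_inv_id := NatTrans.ext (funext fun j => (mpIso (t.op ⋙ p.p.obj j.unop) Z).hom_inv_id)
  inv_hom_id := NatTrans.ext (funext fun j => (mpIso (t.op ⋙ p.p.obj j.unop) Z).inv_hom_id)

theorem rp_compare_iff' (t : B ⥤ Th n) (Z : SP B) (e : PSh.Wt J ≅ FL.W J) {p : PSh.Diag n J}
    {K : FLP.CatN n} {Λ : PSh.Cocone p K} {Λ' : FL.Hoco p.p ⟶ K.X} (h : Corr e Λ Λ') :
    HoEq ((PSh.rp t Z).compare Λ) ↔ HoEq (FL.Mp.pre (Functor.whiskerLeft t.op Λ') Z) := by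
  obtain ⟨E2, hE2⟩ := Helper61FL.exists_holimIso (rD t p.p) Z
  let E : FL.Mp (t.op ⋙ FL.Hoco p.p) Z ≅ Mp (PSh.Wt J) ((PSh.rp t Z).along p) :=
    preIso (hocoIso t p.p) Z ≪≫ E2 ≪≫ postIso _ (dIso t Z p) ≪≫ preIso e _ ≪≫ mpIso _ _
  have key : FL.Mp.pre (Functor.whiskerLeft t.op Λ') Z ≫ E.hom =
      (mpIso (t.op ⋙ K.X) Z).hom ≫ (PSh.rp t Z).compare Λ := by
    refine NatTrans.ext (funext fun m => ConcreteCategory.hom_ext _ _
      fun (ψ : MpS (t.op ⋙ K.X) Z m.unop) => ?_)
    refine NatTrans.ext (funext fun j => NatTrans.ext (funext fun k =>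
      ConcreteCategory.hom_ext _ _ fun w => ?_))
    obtain ⟨w, z⟩ := w
    let w' : FL.WS j.unop k.unop := (e.hom.app j).app k w
    let X : MpS (t.op ⋙ p.p.obj j.unop) Z k.unop :=
      (E2.hom.app m ((MpS.ofHom m.unop (hocoIso t p.p).hom).comp
        ((MpS.ofHom m.unop (Functor.whiskerLeft t.op Λ')).comp ψ)) :
          MpS (FL.W J) (FL.mpDiag (rD t p.p) Z) m.unop).app j k (SSet.stdSimplex.objEquiv z) w'
    show toMx X = Mx.comp (Mx.along t (((Λ.app j).app k w : (p.at j.unop).Mx K k.unop)))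
      ((SSet.yonedaEquiv.symm (toMx ψ : Sx ((PSh.rp t Z).obj K) m.unop) :
        SSet.stdSimplex.obj m.unop ⟶ (PSh.rp t Z).obj K).app k z)
    have hw : (e.inv.app j).app k w' = w := iso_hom_inv e w
    have hc := h j.unop k.unop w'
    rw [show ((e.inv.app (op j.unop)).app (op k.unop)) w' = w from hw] at hc
    apply (mxEquiv _ _ _).symm.injective
    show ofMx (toMx X) = ofMx _
    rw [ofMx_toMx]
    refine MpS.ext ?_
    funext b l s x
    refine (hE2 m _ j k (SSet.stdSimplex.objEquiv z) w' b l s x).trans ?_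
    have hc' := congrArg (fun χ : MpS (p.p.obj j.unop) K.X k.unop => χ.app (t.op.obj b) l s x) hc
    refine Eq.trans ?_ (comp_elem t ((Λ.app j).app k w : (p.at j.unop).Mx K k.unop) ψ
      (SSet.stdSimplex.objEquiv z) b l s x).symm
    exact congrArg (ψ.app b l (s ≫ SSet.stdSimplex.objEquiv z)) hc'
  constructor
  · intro h1
    exact Pool.Agent.Helper88.FL.hoEq_of_arrow_iso (mpIso (t.op ⋙ K.X) Z).symm E.symm
      (arrow_symm (mpIso (t.op ⋙ K.X) Z) E key) h1
  · intro h1
    exact Pool.Agent.Helper88.FL.hoEq_of_arrow_iso (mpIso (t.op ⋙ K.X) Z) E key h1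

theorem rp_compare_iff (e : PSh.Wt J ≅ FL.W J) {p : PSh.Diag n J} {K : FLP.CatN n}
    {Λ : PSh.Cocone p K} {Λ' : FL.Hoco p.p ⟶ K.X} (h : Corr e Λ Λ') (i : ℕ) (Z : FLP.CatN n) :
    HoEq ((PSh.rp (FL.tr n i) Z.X).compare Λ) ↔
      HoEq (FL.Mp.pre (Functor.whiskerLeft (FL.tr n i).op Λ') Z.X) :=
  rp_compare_iff' (FL.tr n i) Z.X e h

end

end Helper83FLP
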